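import Pool.Agent.LibCV6.P1

/-!
Counting the embeddings of a function field: functionals on cycles.
-/

open WeierstrassCurve Pool.Agent.LibBH2 Pool.Agent.LibIG50 Pool.Agent.LibCHd
open scoped Classical

namespace Pool.Agent.LibCV6

variable {k : Type} [Field k] {r : ℕ} {W : Fin r → WeierstrassCurve k} {Y : Prj k}
variable {M Ω : Type} [Field M] [Algebra k M] [Field Ω] [Algebra k Ω]

theorem hc_ext {V : WeierstrassCurve k} {P Q : (V⁄M).toAffine.Point}
    (h : ∀ j, hc P j = hc Q j) : P = Q := by
  match P, Q with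
  | .zero, .zero => rfl
  | .zero, .some x y _ => exact absurd (h 2) (by simp [hc])
  | .some x y _, .zero => exact absurd (h 2) (by simp [hc])
  | .some x y _, .some x' y' _ =>
    have h0 : x = x' := by simpa [hc] using h 0
    have h1 : y = y' := by simpa [hc] using h 1
    subst h0
    subst h1
    rfl

theorem pnt_ext {q q' : Pnt W Y M} (h : ∀ s, co q s = co q' s) : q = q' := by
  have h1 : q.z = q'.z := by
    funext i
    exact hc_ext fun j => h (Sum.inl (i, j))
  have h2 : q.y = q'.y := by
    funext j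
    exact h (Sum.inr j)
  cases q
  cases q'
  simp only at h1 h2
  subst h1
  subst h2
  rfl

theorem nrm_map {u : Pnt W Y M} (hu : Nrm u) (f : M →ₐ[k] Ω) : Nrm (u.map f) := by
  obtain ⟨i, h1, h2⟩ := hu
  refine ⟨i, ?_, fun j hj => ?_⟩
  · show f (u.y i) = 1
    rw [h1, map_one]
  · show f (u.y j) = 0
    rw [h2 j hj, map_zero]

theorem map_eq_iff {u : Pnt W Y M} (hu : Nrm u) {q : Pnt W Y Ω} (σ : fld u →ₐ[k] Ω)
    (hσ : ∀ s, σ ⟨co u s, co_mem hu s⟩ = co q s) (τ : M →ₐ[k] Ω) :
    u.map τ = q ↔ ∀ x : fld u, τ x = σ x := by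
  constructor
  · intro h
    have h1 : τ.comp (fld u).val = σ := by
      refine IntermediateField.algHom_ext_of_eq_adjoin k (fld_eq_adjoin hu) ?_
      rintro _ ⟨s, rfl⟩
      have h2 : co (u.map τ) s = co q s := by rw [h]
      rw [co_map] at h2
      exact h2.trans (hσ s).symm
    intro x
    rw [← h1]
    rfl
  · intro h
    apply pnt_ext
    intro s
    rw [co_map, ← hσ s]
    exact h ⟨co u s, co_mem hu s⟩

/-- **the number of embeddings of `M` over a given point** -/
theorem card_fib [CharZero k] [IsAlgClosed Ω] {u : Pnt W Y M} (hu : Nrm u) {q : Pnt W Y Ω}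
    (hq : Nrm q) (h : eqs q = eqs u) [FiniteDimensional (fld u) M] :
    Nat.card {τ : M →ₐ[k] Ω // u.map τ = q} = Module.finrank (fld u) M := by
  obtain ⟨σ, hσ⟩ := exists_hom hu hq h.symm
  let : Algebra (fld u) Ω := σ.toRingHom.toAlgebra
  have hsm : ∀ x : fld u, algebraMap (fld u) Ω x = σ x := fun x => rfl
  have : IsScalarTower k (fld u) Ω := IsScalarTower.of_algebraMap_eq fun c => (σ.commutes c).symm
  have : CharZero (fld u) := charZero_of_injective_algebraMap (algebraMap k (fld u)).injective
  let e : (M →ₐ[fld u] Ω) ≃ {τ : M →ₐ[k] Ω // u.map τ = q} :=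
    { toFun := fun φ => ⟨φ.restrictScalars k, by
        rw [map_eq_iff hu σ hσ]
        intro x
        exact φ.commutes x⟩
      invFun := fun τ => { (τ.1 : M →+* Ω) with
        commutes' := fun x => (map_eq_iff hu σ hσ τ.1).1 τ.2 x }
      left_inv := fun φ => by ext x; rfl
      right_inv := fun τ => by
        apply Subtype.ext
        ext x
        rfl }
  rw [← Nat.card_congr e, ← Field.finSepDegree_eq_of_isAlgClosed (fld u) M Ω,
    Field.finSepDegree_eq_finrank_of_isSeparable]

theorem finsum_fib {α β G : Type} [AddCommGroup G] (f : α → β) {n : ℕ} (hn : 0 < n)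
    (hc : ∀ b, Nat.card {a // f a = b} = n) (h : β → G) :
    (n : ℤ) • ∑ᶠ b, h b = ∑ᶠ a, h (f a) := by
  have hfib : ∀ b, {a | f a = b}.Finite := by
    intro b
    have : Finite {a // f a = b} := Nat.finite_of_card_ne_zero (by rw [hc]; exact hn.ne')
    exact @Set.toFinite _ {a | f a = b} this
  have hf : Function.Surjective f := by
    intro b
    have h1 : 0 < Nat.card {a // f a = b} := by rw [hc]; exact hn
    obtain ⟨a, ha⟩ := (Nat.card_pos_iff.1 h1).1
    exact ⟨a, ha⟩
  by_cases hs : (Function.support h).Finite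
  · have hs' : (Function.support fun a => h (f a)) = f ⁻¹' (Function.support h) := rfl
    have hs2 : (Function.support fun a => h (f a)).Finite := by
      rw [hs']
      exact Set.Finite.preimage' hs fun b _ => hfib b
    rw [finsum_eq_sum_of_support_subset (s := hs.toFinset) _ (by simp),
      finsum_eq_sum_of_support_subset (s := hs2.toFinset) _ (by simp), Finset.smul_sum,
      ← Finset.sum_fiberwise_of_maps_to (s := hs2.toFinset) (t := hs.toFinset) (g := f) (by
        intro a ha
        simp only [Set.Finite.mem_toFinset] at ha ⊢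
        exact ha)]
    refine Finset.sum_congr rfl fun b hb => ?_
    have h3 : ∀ a ∈ hs2.toFinset.filter (fun a => f a = b), h (f a) = h b := by
      intro a ha
      rw [Finset.mem_filter] at ha
      rw [← ha.2]
    rw [Finset.sum_congr rfl h3, Finset.sum_const, natCast_zsmul]
    congr 1
    have h4 : hs2.toFinset.filter (fun a => f a = b) = (hfib b).toFinset := by
      ext a
      simp only [Finset.mem_filter, Set.Finite.mem_toFinset, Function.mem_support, Set.mem_ofPred_eq]
      constructor
      · exact fun h5 => h5.2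
      · rintro rfl
        refine ⟨?_, rfl⟩
        simpa using hb
    rw [h4, ← hc b]
    exact Nat.card_eq_card_finite_toFinset (hfib b)
  · rw [finsum_of_infinite_support hs, smul_zero, finsum_of_infinite_support]
    intro hs2
    apply hs
    have : (Function.support h) ⊆ f '' (Function.support fun a => h (f a)) := by
      intro b hb
      obtain ⟨a, rfl⟩ := hf b
      exact ⟨a, hb, rfl⟩
    exact (hs2.image f).subset this

/-- the functional on sets of equations given by a function `h` on the points -/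
noncomputable def fnl {G : Type} [AddCommGroup G] (h : Pnt W Y Ω → G)
    (s : Set (MvPolynomial (Idx r Y.N) k)) : G :=
  ∑ᶠ q : {q : Pnt W Y Ω // Nrm q ∧ eqs q = s}, h q.1

/-- the functional on cycles given by a function `h` on the points -/
noncomputable def fnc {G : Type} [AddCommGroup G] (h : Pnt W Y Ω → G) : Cyc r Y →+ G :=
  Finsupp.liftAddHom fun s => (smulAddHom ℤ G).flip (fnl h s)

theorem fnc_single {G : Type} [AddCommGroup G] (h : Pnt W Y Ω → G)
    (s : Set (MvPolynomial (Idx r Y.N) k)) (n : ℤ) :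
    fnc h (Finsupp.single s n) = n • fnl h s := by
  simp [fnc]

/-- **the value of the functional at the cycle of a point is a sum over the embeddings** -/
theorem fnc_cyc [CharZero k] [IsAlgClosed Ω] {G : Type} [AddCommGroup G] (h : Pnt W Y Ω → G)
    {u : Pnt W Y M} (hu : Nrm u)
    (hfin : ∀ q, Nrm q → eqs q = eqs u → h q ≠ 0 → FiniteDimensional (fld u) M) :
    fnc h (cyc u) = ∑ᶠ τ : M →ₐ[k] Ω, h (u.map τ) := by
  unfold cyc
  rw [fnc_single]
  by_cases h0 : ∃ q, Nrm q ∧ eqs q = eqs u ∧ h q ≠ 0
  swap
  · have h1 : fnl h (eqs u) = 0 := by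
      unfold fnl
      rw [finsum_eq_zero_of_forall_eq_zero]
      rintro ⟨q, hq1, hq2⟩
      by_contra h2
      exact h0 ⟨q, hq1, hq2, h2⟩
    rw [h1, smul_zero, finsum_eq_zero_of_forall_eq_zero]
    intro τ
    by_contra h2
    exact h0 ⟨u.map τ, nrm_map hu τ, eqs_map τ u, h2⟩
  obtain ⟨q0, hq1, hq2, hq3⟩ := h0
  have := hfin q0 hq1 hq2 hq3
  let Q := {q : Pnt W Y Ω // Nrm q ∧ eqs q = eqs u}
  let f : (M →ₐ[k] Ω) → Q := fun τ => ⟨u.map τ, nrm_map hu τ, eqs_map τ u⟩
  have hc : ∀ q : Q, Nat.card {τ : M →ₐ[k] Ω // f τ = q} = Module.finrank (fld u) M := by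
    intro q
    rw [← card_fib hu q.2.1 q.2.2]
    refine Nat.card_congr (Equiv.subtypeEquivRight fun τ => ?_)
    exact Subtype.ext_iff
  exact finsum_fib f Module.finrank_pos hc fun q => h q.1

end Pool.Agent.LibCV6
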