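import Pool.Agent.LibCHd.B6

/-!
Points with the same multihomogeneous equations.
-/

open WeierstrassCurve Pool.Agent.LibBH2 Pool.Agent.LibIG50 Pool.Agent.LibCHd
open scoped Classical

namespace Pool.Agent.LibCV6

variable {k : Type} [Field k] {r : ℕ} {W : Fin r → WeierstrassCurve k} {Y : Prj k}
variable {M Ω : Type} [Field M] [Algebra k M] [Field Ω] [Algebra k Ω]

/-- the homogeneous coordinates of the component in `Y` are normalised: the first one which is not
zero is `1` -/
def Nrm (q : Pnt W Y M) : Prop := ∃ i, q.y i = 1 ∧ ∀ j < i, q.y j = 0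

/-- the same point with the homogeneous coordinates multiplied by `c` -/
def Pnt.scale (c : M) (hc : c ≠ 0) (q : Pnt W Y M) : Pnt W Y M where
  z := q.z
  y := c • q.y
  y_ne := smul_ne_zero hc q.y_ne
  mem := by
    intro f hf
    obtain ⟨n, hn⟩ := Y.hom f hf
    have h1 := q.mem f hf
    have h2 : MvPolynomial.aeval (c • q.y) f = c ^ n * MvPolynomial.aeval q.y f := by
      rw [MvPolynomial.aeval_def, MvPolynomial.aeval_def, MvPolynomial.eval₂_eq',
        MvPolynomial.eval₂_eq', Finset.mul_sum]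
      refine Finset.sum_congr rfl fun d hd => ?_
      have h3 : ∑ i, d i = n := by
        have := hn (MvPolynomial.mem_support_iff.1 hd)
        rw [← this, Finsupp.weight_apply, Finsupp.sum_fintype _ _ (fun i => by simp)]
        exact Finset.sum_congr rfl fun i _ => by simp
      simp only [Pi.smul_apply, smul_eq_mul, mul_pow, Finset.prod_mul_distrib,
        Finset.prod_pow_eq_pow_sum, h3]
      ring
    rw [h2, h1, mul_zero]

theorem exists_nrm (q : Pnt W Y M) : ∃ (c : M) (hc : c ≠ 0), Nrm (Pnt.scale c hc q) := by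
  have h0 : ∃ i, q.y i ≠ 0 := by
    by_contra h
    push Not at h
    exact q.y_ne (funext h)
  let S : Finset (Fin (Y.N + 1)) := Finset.univ.filter fun i => q.y i ≠ 0
  have hS : S.Nonempty := by
    obtain ⟨i, hi⟩ := h0
    exact ⟨i, by simp [S, hi]⟩
  have h1 : q.y (S.min' hS) ≠ 0 := by
    have := S.min'_mem hS
    simpa [S] using this
  refine ⟨(q.y (S.min' hS))⁻¹, inv_ne_zero h1, S.min' hS, ?_, ?_⟩
  · show (q.y (S.min' hS))⁻¹ • q.y (S.min' hS) = 1
    rw [smul_eq_mul, inv_mul_cancel₀ h1]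
  · intro j hj
    show (q.y (S.min' hS))⁻¹ • q.y j = 0
    have h2 : q.y j = 0 := by
      by_contra h
      exact absurd (S.min'_le j (by simp [S, h])) (not_le.2 hj)
    rw [h2, smul_zero]

/-- the degree of a monomial in the coordinates of the curve `i` -/
def dz {N : ℕ} (m : Idx r N →₀ ℕ) (i : Fin r) : ℕ := ∑ j : Fin 3, m (Sum.inl (i, j))

/-- the degree of a monomial in the coordinates of `Y` -/
def dy {N : ℕ} (m : Idx r N →₀ ℕ) : ℕ := ∑ j : Fin (N + 1), m (Sum.inr j)

theorem eqs_scale (c : M) (hc : c ≠ 0) (q : Pnt W Y M) : eqs (Pnt.scale c hc q) = eqs q := by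
  ext F
  show (MHom F ∧ _) ↔ (MHom F ∧ _)
  refine and_congr_right fun hF => ?_
  obtain ⟨a, b, hab⟩ := hF
  have h2 : MvPolynomial.aeval (co (Pnt.scale c hc q)) F = c ^ b * MvPolynomial.aeval (co q) F := by
    rw [MvPolynomial.aeval_def, MvPolynomial.aeval_def, MvPolynomial.eval₂_eq',
      MvPolynomial.eval₂_eq', Finset.mul_sum]
    refine Finset.sum_congr rfl fun d hd => ?_
    have h3 : ∑ j, d (Sum.inr j) = b := (hab d hd).2
    rw [Fintype.prod_sum_type, Fintype.prod_sum_type]
    have h4 : ∀ x, co (Pnt.scale c hc q) (Sum.inl x) = co q (Sum.inl x) := fun x => rfl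
    have h5 : ∀ x, co (Pnt.scale c hc q) (Sum.inr x) = c * co q (Sum.inr x) := fun x => rfl
    simp only [h4, h5, mul_pow, Finset.prod_mul_distrib, Finset.prod_pow_eq_pow_sum, h3]
    ring
  rw [h2, mul_eq_zero, or_iff_right (pow_ne_zero _ hc)]

theorem fld_scale (c : M) (hc : c ≠ 0) (q : Pnt W Y M) : fld (Pnt.scale c hc q) = fld q := by
  unfold fld
  congr 2
  ext x
  constructor
  · rintro ⟨a, b, rfl⟩
    refine ⟨a, b, ?_⟩
    show (c * q.y a) / (c * q.y b) = _
    exact mul_div_mul_left _ _ hc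
  · rintro ⟨a, b, rfl⟩
    refine ⟨a, b, ?_⟩
    show _ = (c * q.y a) / (c * q.y b)
    exact (mul_div_mul_left _ _ hc).symm

theorem cyc_scale (c : M) (hc : c ≠ 0) (q : Pnt W Y M) : cyc (Pnt.scale c hc q) = cyc q := by
  unfold cyc
  rw [eqs_scale, fld_scale]

/-- the coordinate of a point of a curve which is `1` -/
noncomputable def pv {V : WeierstrassCurve k} (P : (V⁄M).toAffine.Point) : Fin 3 :=
  if hc P 2 = 0 then 1 else 2

theorem hc_pv {V : WeierstrassCurve k} (P : (V⁄M).toAffine.Point) : hc P (pv P) = 1 := by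
  match P with
  | .zero => simp [pv, hc]
  | .some x y h => simp [pv, hc]

theorem hc_two {V : WeierstrassCurve k} (P : (V⁄M).toAffine.Point) : hc P 2 = 0 ↔ P = 0 := by
  match P with
  | .zero => simp [hc]; rfl
  | .some x y h => simp [hc]

theorem mhom_X (s : Idx r Y.N) : MHom (MvPolynomial.X s : MvPolynomial (Idx r Y.N) k) := by
  rcases s with ⟨i, j⟩ | j
  · refine ⟨Pi.single i 1, 0, fun m hm => ?_⟩
    rw [MvPolynomial.support_X, Finset.mem_singleton] at hm
    subst hm
    constructor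
    · intro i'
      by_cases h : i' = i
      · subst h
        simp [Finsupp.single_apply]
      · rw [Pi.single_eq_of_ne h]
        refine Finset.sum_eq_zero fun j' _ => ?_
        rw [Finsupp.single_apply, if_neg]
        intro h'
        simp only [Sum.inl.injEq, Prod.mk.injEq] at h'
        exact h h'.1.symm
    · simp
  · refine ⟨0, 1, fun m hm => ?_⟩
    rw [MvPolynomial.support_X, Finset.mem_singleton] at hm
    subst hm
    constructor
    · intro i'
      simp
    · simp [Finsupp.single_apply]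

theorem co_zero_iff {u : Pnt W Y M} {q : Pnt W Y Ω} (h : eqs u = eqs q) (s : Idx r Y.N) :
    co u s = 0 ↔ co q s = 0 := by
  have h1 : (MvPolynomial.X s : MvPolynomial (Idx r Y.N) k) ∈ eqs u ↔
      (MvPolynomial.X s : MvPolynomial (Idx r Y.N) k) ∈ eqs q := by rw [h]
  have h2 : ∀ {F : Type} [Field F] [Algebra k F] (w : Pnt W Y F),
      (MvPolynomial.X s : MvPolynomial (Idx r Y.N) k) ∈ eqs w ↔ co w s = 0 := by
    intro F _ _ w
    show (MHom _ ∧ _) ↔ _
    rw [MvPolynomial.aeval_X]
    exact and_iff_right (mhom_X s)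
  rwa [h2, h2] at h1

theorem pv_eq {u : Pnt W Y M} {q : Pnt W Y Ω} (h : eqs u = eqs q) (i : Fin r) :
    pv (u.z i) = pv (q.z i) := by
  have h1 := co_zero_iff h (Sum.inl (i, 2))
  have h2 : hc (u.z i) 2 = 0 ↔ hc (q.z i) 2 = 0 := h1
  unfold pv
  simp only [h2]

/-- the coordinates which are `1` -/
theorem piv {u : Pnt W Y M} {q : Pnt W Y Ω} (hu : Nrm u) (hq : Nrm q) (h : eqs u = eqs q) :
    ∃ j, u.y j = 1 ∧ q.y j = 1 := by
  obtain ⟨i, h1, h2⟩ := hu
  obtain ⟨j, h3, h4⟩ := hq
  have h5 : ∀ a, u.y a = 0 ↔ q.y a = 0 := fun a => co_zero_iff h (Sum.inr a)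
  rcases lt_trichotomy i j with h6 | h6 | h6
  · exact absurd ((h5 i).2 (h4 i h6)) (by rw [h1]; exact one_ne_zero)
  · subst h6
    exact ⟨i, h1, h3⟩
  · exact absurd ((h5 j).1 (h2 j h6)) (by rw [h3]; exact one_ne_zero)

/-- the homogenisation of a monomial -/
noncomputable def hom1 {N : ℕ} (A : ℕ) (p : Fin r → Fin 3) (j : Fin (N + 1)) (m : Idx r N →₀ ℕ) :
    Idx r N →₀ ℕ :=
  m + (∑ i, Finsupp.single (Sum.inl (i, p i)) (A - dz m i)) + Finsupp.single (Sum.inr j) (A - dy m)

theorem dz_hom1 {N : ℕ} {A : ℕ} (p : Fin r → Fin 3) (j : Fin (N + 1)) (m : Idx r N →₀ ℕ)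
    (i : Fin r) (h : dz m i ≤ A) : dz (hom1 A p j m) i = A := by
  unfold dz hom1
  simp only [Finsupp.add_apply, Finset.sum_add_distrib, Finsupp.finsetSum_apply,
    Finsupp.single_apply]
  have h1 : ∑ x : Fin 3, ∑ x_1 : Fin r,
      (if (Sum.inl (x_1, p x_1) : Idx r N) = Sum.inl (i, x) then A - dz m x_1 else 0) =
      A - dz m i := by
    rw [Finset.sum_comm, Finset.sum_eq_single i]
    · rw [Finset.sum_eq_single (p i)]
      · simp
      · intro x _ hx
        rw [if_neg]
        intro h'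
        simp only [Sum.inl.injEq, Prod.mk.injEq, true_and] at h'
        exact hx h'.symm
      · simp
    · intro x _ hx
      refine Finset.sum_eq_zero fun y _ => if_neg ?_
      intro h'
      simp only [Sum.inl.injEq, Prod.mk.injEq] at h'
      exact hx h'.1
    · simp
  rw [h1]
  have h2 : ∑ x : Fin 3, (if (Sum.inr j : Idx r N) = Sum.inl (i, x) then A - dy m else 0) = 0 := by
    simp
  rw [h2]
  unfold dz at h ⊢
  omega

theorem dy_hom1 {N : ℕ} {A : ℕ} (p : Fin r → Fin 3) (j : Fin (N + 1)) (m : Idx r N →₀ ℕ)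
    (h : dy m ≤ A) : dy (hom1 A p j m) = A := by
  unfold dy hom1
  simp only [Finsupp.add_apply, Finset.sum_add_distrib, Finsupp.finsetSum_apply,
    Finsupp.single_apply]
  have h1 : ∑ x : Fin (N + 1), ∑ x_1 : Fin r,
      (if (Sum.inl (x_1, p x_1) : Idx r N) = Sum.inr x then A - dz m x_1 else 0) = 0 := by
    simp
  rw [h1]
  have h2 : ∑ x : Fin (N + 1), (if (Sum.inr j : Idx r N) = Sum.inr x then A - dy m else 0) =
      A - dy m := by
    simp
  rw [h2]
  unfold dy at h ⊢
  omega

/-- the homogenisation of a polynomial -/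
noncomputable def homz {N : ℕ} (p : Fin r → Fin 3) (j : Fin (N + 1))
    (F : MvPolynomial (Idx r N) k) : MvPolynomial (Idx r N) k :=
  ∑ m ∈ F.support, MvPolynomial.monomial (hom1 (F.support.sup fun m => (∑ i, dz m i) + dy m) p j m)
    (F.coeff m)

theorem le_sup {N : ℕ} (F : MvPolynomial (Idx r N) k) {m : Idx r N →₀ ℕ} (hm : m ∈ F.support) :
    (∀ i, dz m i ≤ F.support.sup fun m => (∑ i, dz m i) + dy m) ∧
      dy m ≤ F.support.sup fun m => (∑ i, dz m i) + dy m := by
  have h1 : (∑ i, dz m i) + dy m ≤ F.support.sup fun m => (∑ i, dz m i) + dy m :=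
    Finset.le_sup (f := fun m => (∑ i, dz m i) + dy m) hm
  refine ⟨fun i => le_trans ?_ h1, le_trans (Nat.le_add_left _ _) h1⟩
  exact le_trans (Finset.single_le_sum (f := fun i => dz m i) (fun _ _ => Nat.zero_le _)
    (Finset.mem_univ i)) (Nat.le_add_right _ _)

theorem mhom_homz {N : ℕ} (p : Fin r → Fin 3) (j : Fin (N + 1)) (F : MvPolynomial (Idx r N) k) :
    MHom (homz p j F) := by
  set A := F.support.sup fun m => (∑ i, dz m i) + dy m with hA
  refine ⟨fun _ => A, A, fun m hm => ?_⟩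
  obtain ⟨m', hm', h1⟩ := Finset.mem_biUnion.1 (MvPolynomial.support_sum hm)
  have h2 : m = hom1 A p j m' := by
    have := MvPolynomial.support_monomial_subset h1
    rwa [Finset.mem_singleton] at this
  subst h2
  exact ⟨fun i => dz_hom1 p j m' i ((le_sup F hm').1 i), dy_hom1 p j m' (le_sup F hm').2⟩

theorem aeval_homz {N : ℕ} (p : Fin r → Fin 3) (j : Fin (N + 1)) (F : MvPolynomial (Idx r N) k)
    (c : Idx r N → M) (hp : ∀ i, c (Sum.inl (i, p i)) = 1) (hj : c (Sum.inr j) = 1) :
    MvPolynomial.aeval c (homz p j F) = MvPolynomial.aeval c F := by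
  unfold homz
  rw [map_sum]
  conv_rhs => rw [MvPolynomial.as_sum F, map_sum]
  refine Finset.sum_congr rfl fun m hm => ?_
  rw [MvPolynomial.aeval_monomial, MvPolynomial.aeval_monomial]
  congr 1
  unfold hom1
  have h0 : (Finsupp.single (Sum.inr j : Idx r N)
      ((F.support.sup fun m => (∑ i, dz m i) + dy m) - dy m)).prod (fun s n => c s ^ n) = 1 := by
    rw [Finsupp.prod_single_index (h := fun s n => c s ^ n) (pow_zero _), hj, one_pow]
  rw [Finsupp.prod_add_index' (h := fun s n => c s ^ n) (fun _ => pow_zero _)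
      (fun _ _ _ => pow_add _ _ _),
    Finsupp.prod_add_index' (h := fun s n => c s ^ n) (fun _ => pow_zero _)
      (fun _ _ _ => pow_add _ _ _), h0, mul_one]
  have h1 : (∑ i, Finsupp.single (Sum.inl (i, p i) : Idx r N)
      ((F.support.sup fun m => (∑ i, dz m i) + dy m) - dz m i)).prod (fun s n => c s ^ n) = 1 := by
    rw [← Finsupp.prod_finsetSum_index (h := fun s n => c s ^ n) (fun _ => pow_zero _)
      (fun _ _ _ => pow_add _ _ _)]
    refine Finset.prod_eq_one fun i _ => ?_
    rw [Finsupp.prod_single_index (h := fun s n => c s ^ n) (pow_zero _), hp, one_pow]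
  rw [h1, mul_one]

/-- **Points with the same multihomogeneous equations satisfy the same equations** -/
theorem aeval_iff {u : Pnt W Y M} {q : Pnt W Y Ω} (hu : Nrm u) (hq : Nrm q) (h : eqs u = eqs q)
    (F : MvPolynomial (Idx r Y.N) k) :
    MvPolynomial.aeval (co u) F = 0 ↔ MvPolynomial.aeval (co q) F = 0 := by
  obtain ⟨j, h1, h2⟩ := piv hu hq h
  have h3 : ∀ i, co u (Sum.inl (i, pv (u.z i))) = 1 := fun i => hc_pv (u.z i)
  have h4 : ∀ i, co q (Sum.inl (i, pv (u.z i))) = 1 := by
    intro i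
    rw [pv_eq h]
    exact hc_pv (q.z i)
  have h5 := aeval_homz (fun i => pv (u.z i)) j F (co u) h3 h1
  have h6 := aeval_homz (fun i => pv (u.z i)) j F (co q) h4 h2
  rw [← h5, ← h6]
  have h7 : homz (fun i => pv (u.z i)) j F ∈ eqs u ↔ homz (fun i => pv (u.z i)) j F ∈ eqs q := by
    rw [h]
  have h8 := mhom_homz (k := k) (fun i => pv (u.z i)) j F
  constructor
  · intro h9
    exact (h7.1 ⟨h8, h9⟩).2
  · intro h9
    exact (h7.2 ⟨h8, h9⟩).2

theorem fld_eq_adjoin {u : Pnt W Y M} (hu : Nrm u) :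
    fld u = IntermediateField.adjoin k (Set.range (co u)) := by
  apply le_antisymm
  · rw [fld, IntermediateField.adjoin_le_iff]
    rintro c (⟨i, a, b, rfl⟩ | ⟨a, b, rfl⟩)
    · exact IntermediateField.div_mem _
        (IntermediateField.subset_adjoin _ _ ⟨Sum.inl (i, a), rfl⟩)
        (IntermediateField.subset_adjoin _ _ ⟨Sum.inl (i, b), rfl⟩)
    · exact IntermediateField.div_mem _
        (IntermediateField.subset_adjoin _ _ ⟨Sum.inr a, rfl⟩)
        (IntermediateField.subset_adjoin _ _ ⟨Sum.inr b, rfl⟩)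
  · rw [IntermediateField.adjoin_le_iff]
    rintro _ ⟨s, rfl⟩
    rcases s with ⟨i, a⟩ | a
    · refine IntermediateField.subset_adjoin _ _ (Or.inl ⟨i, a, pv (u.z i), ?_⟩)
      show hc (u.z i) a = _
      rw [hc_pv, div_one]
    · obtain ⟨j, hj, _⟩ := hu
      refine IntermediateField.subset_adjoin _ _ (Or.inr ⟨a, j, ?_⟩)
      show u.y a = _
      rw [hj, div_one]

theorem co_mem {u : Pnt W Y M} (hu : Nrm u) (s : Idx r Y.N) : co u s ∈ fld u := by
  rw [fld_eq_adjoin hu]
  exact IntermediateField.subset_adjoin _ _ ⟨s, rfl⟩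

/-- **the embedding given by a point with the same equations** -/
theorem exists_hom {u : Pnt W Y M} {q : Pnt W Y Ω} (hu : Nrm u) (hq : Nrm q)
    (h : eqs u = eqs q) : ∃ σ : fld u →ₐ[k] Ω, ∀ s, σ ⟨co u s, co_mem hu s⟩ = co q s := by
  have key : ∃ σ : IntermediateField.adjoin k (Set.range (co u)) →ₐ[k] Ω,
      ∀ s, σ ⟨co u s, IntermediateField.subset_adjoin _ _ ⟨s, rfl⟩⟩ = co q s := by
    let f := MvPolynomial.aeval (R := k) (co u)
    let g := MvPolynomial.aeval (R := k) (co q)
    have hfg : ∀ F, f F = 0 ↔ g F = 0 := aeval_iff hu hq h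
    let A := Algebra.adjoin k (Set.range (co u))
    have hr : A = f.range := Algebra.adjoin_range_eq_range_aeval k (co u)
    let f' : MvPolynomial (Idx r Y.N) k →ₐ[k] A := f.codRestrict A (fun F => by
      rw [hr]; exact ⟨F, rfl⟩)
    have hf' : Function.Surjective f' := by
      rintro ⟨a, ha⟩
      have ha' : a ∈ f.range := by rw [← hr]; exact ha
      obtain ⟨F, hF⟩ := ha'
      exact ⟨F, Subtype.ext hF⟩
    let e := Ideal.quotientKerAlgEquivOfSurjective hf'
    have hker : ∀ F, F ∈ RingHom.ker f' → g F = 0 := by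
      intro F hF
      rw [RingHom.mem_ker] at hF
      exact (hfg F).1 (congrArg Subtype.val hF)
    let g' : (MvPolynomial (Idx r Y.N) k ⧸ RingHom.ker f') →ₐ[k] Ω :=
      Ideal.Quotient.liftₐ _ g hker
    let τ : A →ₐ[k] Ω := g'.comp e.symm.toAlgHom
    have hτ : ∀ F, τ (f' F) = g F := by
      intro F
      show g' (e.symm (f' F)) = g F
      have h1 : e.symm (f' F) = Ideal.Quotient.mk _ F := by
        rw [AlgEquiv.symm_apply_eq]
        exact (Ideal.quotientKerAlgEquivOfSurjective_mk hf' F).symm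
      rw [h1]
      rfl
    have hinj : Function.Injective τ := by
      rw [injective_iff_map_eq_zero]
      intro a ha
      obtain ⟨F, rfl⟩ := hf' a
      rw [hτ] at ha
      exact Subtype.ext ((hfg F).2 ha)
    open IntermediateField.algebraAdjoinAdjoin in
    let σ : IntermediateField.adjoin k (Set.range (co u)) →ₐ[k] Ω :=
      IsFractionRing.liftAlgHom (A := A) (g := τ) hinj
    refine ⟨σ, fun s => ?_⟩
    open IntermediateField.algebraAdjoinAdjoin in
    have h2 : σ (algebraMap A _ (f' (MvPolynomial.X s))) = τ (f' (MvPolynomial.X s)) :=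
      IsFractionRing.lift_algebraMap (A := A) hinj _
    rw [hτ] at h2
    have h3 : (⟨co u s, IntermediateField.subset_adjoin _ _ ⟨s, rfl⟩⟩ :
        IntermediateField.adjoin k (Set.range (co u))) =
        ⟨MvPolynomial.aeval (co u) (MvPolynomial.X s : MvPolynomial (Idx r Y.N) k), by
          rw [MvPolynomial.aeval_X]
          exact IntermediateField.subset_adjoin _ _ ⟨s, rfl⟩⟩ := by
      apply Subtype.ext
      exact (MvPolynomial.aeval_X (R := k) (co u) s).symm
    rw [h3]
    refine Eq.trans ?_ (h2.trans ?_)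
    · rfl
    · exact MvPolynomial.aeval_X (R := k) (co q) s
  obtain ⟨σ, hσ⟩ := key
  have hle : fld u ≤ IntermediateField.adjoin k (Set.range (co u)) := (fld_eq_adjoin hu).le
  exact ⟨σ.comp (IntermediateField.inclusion hle), fun s => hσ s⟩

end Pool.Agent.LibCV6
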